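import Pool.Agent.Helper13.FR.Stmts

set_option autoImplicit false

open Finset Filter
open scoped ComplexConjugate

namespace Pool.Agent.Helper13.FR

open Pool.Agent.Helper16.MD

/-! ### the exponential -/

theorem boh_ee_add (x y : ℝ) : ee (x + y) = ee x * ee y := by
  unfold ee
  rw [← Complex.exp_add]
  congr 1
  push_cast
  ring

theorem boh_norm_ee (x : ℝ) : ‖ee x‖ = 1 := by
  unfold ee
  exact Complex.norm_exp_ofReal_mul_I _

theorem boh_ee_nat (n : ℕ) : ee (n : ℝ) = 1 := by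
  unfold ee
  have h : (((2 * Real.pi * (n : ℝ) : ℝ) : ℂ) * Complex.I) = (n : ℂ) * (2 * Real.pi * Complex.I) := by
    push_cast; ring
  rw [h]
  exact Complex.exp_nat_mul_two_pi_mul_I n

theorem boh_conj_ee (x : ℝ) : conj (ee x) = ee (-x) := by
  unfold ee
  rw [← Complex.exp_conj]
  congr 1
  rw [map_mul, Complex.conj_ofReal, Complex.conj_I]
  push_cast
  ring

theorem boh_ee_mul_conj (x : ℝ) : ee x * conj (ee x) = 1 := by
  rw [Complex.mul_conj, Complex.normSq_eq_norm_sq, boh_norm_ee]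
  simp

/-! ### the Fourier coefficients -/

theorem boh_nu (Λ : ℕ) (G : ℕ → ℂ) (ξ : ℕ) : nu Λ G ξ = ‖gh Λ G ξ‖ ^ 2 := rfl

theorem boh_gh_norm (Λ : ℕ) (G : ℕ → ℂ) (ξ : ℕ) (hΛ : 1 ≤ Λ) (hG : ∀ x, ‖G x‖ ≤ 1) :
    ‖gh Λ G ξ‖ ≤ 1 := by
  unfold gh
  rw [norm_div, Complex.norm_natCast]
  have h0 : (0 : ℝ) < Λ := by exact_mod_cast hΛ
  rw [div_le_one h0]
  calc ‖∑ s ∈ range Λ, G s * ee (-((ξ : ℝ) * s) / Λ)‖
      ≤ ∑ s ∈ range Λ, ‖G s * ee (-((ξ : ℝ) * s) / Λ)‖ := norm_sum_le _ _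
    _ ≤ ∑ s ∈ range Λ, (1 : ℝ) := by
        apply Finset.sum_le_sum
        intro s _
        rw [norm_mul, boh_norm_ee, mul_one]
        exact hG s
    _ = Λ := by simp

theorem boh_gh_sub (Λ : ℕ) (G H : ℕ → ℂ) (ξ : ℕ) :
    gh Λ (fun x => G x - H x) ξ = gh Λ G ξ - gh Λ H ξ := by
  unfold gh
  rw [← sub_div, ← Finset.sum_sub_distrib]
  congr 1
  apply Finset.sum_congr rfl
  intro s _
  ring

theorem boh_gh_sum {ι : Type} (Λ : ℕ) (T : Finset ι) (F : ι → ℕ → ℂ) (k : ℂ) (ξ : ℕ) :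
    gh Λ (fun x => (∑ i ∈ T, F i x) / k) ξ = (∑ i ∈ T, gh Λ (F i) ξ) / k := by
  unfold gh
  rw [← Finset.sum_div, div_right_comm]
  congr 1
  rw [Finset.sum_comm]
  rw [Finset.sum_div]
  apply Finset.sum_congr rfl
  intro s _
  rw [← Finset.sum_mul]
  ring

/-! ### the kernel -/

noncomputable def bohc (Λ : ℕ) (C : Finset ℕ) (ξ : ℕ) : ℂ :=
  (∑ s ∈ C, ee ((ξ : ℝ) * s / Λ)) / (C.card : ℂ)

noncomputable def bohw (Λ : ℕ) (C : Finset ℕ) (ξ : ℕ) : ℝ := ‖bohc Λ C ξ‖ ^ 2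

theorem boh_w_nonneg (Λ : ℕ) (C : Finset ℕ) (ξ : ℕ) : 0 ≤ bohw Λ C ξ := by
  unfold bohw; positivity

theorem boh_w_le (Λ : ℕ) (C : Finset ℕ) (ξ : ℕ) : bohw Λ C ξ ≤ 1 := by
  unfold bohw
  have h : ‖bohc Λ C ξ‖ ≤ 1 := by
    unfold bohc
    rw [norm_div, Complex.norm_natCast]
    apply div_le_one_of_le₀ _ (Nat.cast_nonneg _)
    calc ‖∑ s ∈ C, ee ((ξ : ℝ) * s / Λ)‖ ≤ ∑ s ∈ C, ‖ee ((ξ : ℝ) * s / Λ)‖ := norm_sum_le _ _
      _ = C.card := by simp [boh_norm_ee]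
  have h0 := norm_nonneg (bohc Λ C ξ)
  nlinarith

theorem boh_w_eq (Λ : ℕ) (C : Finset ℕ) (ξ : ℕ) :
    ((bohw Λ C ξ : ℝ) : ℂ) = (∑ s ∈ C, ∑ t ∈ C, ee ((ξ : ℝ) * s / Λ) * conj (ee ((ξ : ℝ) * t / Λ))) /
      ((C.card : ℂ) ^ 2) := by
  unfold bohw
  rw [← Complex.normSq_eq_norm_sq, Complex.normSq_eq_conj_mul_self]
  unfold bohc
  rw [map_div₀, map_sum, Complex.conj_natCast, div_mul_div_comm, ← sq, Finset.sum_mul_sum]
  congr 1
  rw [Finset.sum_comm]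
  apply Finset.sum_congr rfl
  intro s _
  apply Finset.sum_congr rfl
  intro t _
  ring

theorem boh_one_sub_w (Λ : ℕ) (C : Finset ℕ) (ξ : ℕ) (hC : C.Nonempty) (r : ℝ)
    (h : ∀ s ∈ C, ∀ t ∈ C, ‖ee ((ξ : ℝ) * s / Λ) - ee ((ξ : ℝ) * t / Λ)‖ ≤ r) :
    1 - bohw Λ C ξ ≤ r := by
  have hc0 : (0 : ℝ) < C.card := by exact_mod_cast hC.card_pos
  have hcc : (C.card : ℂ) ≠ 0 := by exact_mod_cast hC.card_pos.ne'
  have h1 : ((1 - bohw Λ C ξ : ℝ) : ℂ) =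
      (∑ s ∈ C, ∑ t ∈ C, (1 - ee ((ξ : ℝ) * s / Λ) * conj (ee ((ξ : ℝ) * t / Λ)))) /
        ((C.card : ℂ) ^ 2) := by
    rw [Complex.ofReal_sub, boh_w_eq, Complex.ofReal_one]
    simp_rw [Finset.sum_sub_distrib]
    rw [sub_div]
    congr 1
    simp only [Finset.sum_const, nsmul_eq_mul, mul_one]
    field_simp
  have h2 : ‖((1 - bohw Λ C ξ : ℝ) : ℂ)‖ ≤ r := by
    rw [h1, norm_div, norm_pow, Complex.norm_natCast, div_le_iff₀ (by positivity)]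
    calc ‖∑ s ∈ C, ∑ t ∈ C, (1 - ee ((ξ : ℝ) * s / Λ) * conj (ee ((ξ : ℝ) * t / Λ)))‖
        ≤ ∑ s ∈ C, ‖∑ t ∈ C, (1 - ee ((ξ : ℝ) * s / Λ) * conj (ee ((ξ : ℝ) * t / Λ)))‖ :=
          norm_sum_le _ _
      _ ≤ ∑ s ∈ C, ∑ t ∈ C, ‖(1 - ee ((ξ : ℝ) * s / Λ) * conj (ee ((ξ : ℝ) * t / Λ)))‖ :=
          Finset.sum_le_sum (fun s _ => norm_sum_le _ _)
      _ ≤ ∑ s ∈ C, ∑ t ∈ C, r := by
          apply Finset.sum_le_sum
          intro s hs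
          apply Finset.sum_le_sum
          intro t ht
          have e1 : (1 - ee ((ξ : ℝ) * s / Λ) * conj (ee ((ξ : ℝ) * t / Λ))) =
              (ee ((ξ : ℝ) * t / Λ) - ee ((ξ : ℝ) * s / Λ)) * conj (ee ((ξ : ℝ) * t / Λ)) := by
            rw [sub_mul, boh_ee_mul_conj]
          rw [e1, norm_mul, RCLike.norm_conj, boh_norm_ee, mul_one]
          exact h t ht s hs
      _ = r * (C.card : ℝ) ^ 2 := by
          simp only [Finset.sum_const, nsmul_eq_mul]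
          ring
  rw [Complex.norm_real, Real.norm_eq_abs] at h2
  exact (le_abs_self _).trans h2

theorem boh_w_sum (hFPA : ST_FPA) (Λ : ℕ) (C : Finset ℕ) (hΛ : 1 ≤ Λ) (hC : C.Nonempty)
    (hCs : C ⊆ range Λ) : ∑ ξ ∈ range Λ, bohw Λ C ξ = (Λ : ℝ) / C.card := by
  have hc0 : (0 : ℝ) < C.card := by exact_mod_cast hC.card_pos
  have h1 := hFPA Λ (fun s => if s ∈ C then 1 else 0) hΛ
  have h2 : ∑ ξ ∈ range Λ, ‖(if ξ ∈ C then (1 : ℂ) else 0)‖ ^ 2 = C.card := by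
    have e1 : ∀ ξ ∈ range Λ, ‖(if ξ ∈ C then (1 : ℂ) else 0)‖ ^ 2 = if ξ ∈ C then (1 : ℝ) else 0 := by
      intro ξ _
      split_ifs <;> simp
    rw [Finset.sum_congr rfl e1, ← Finset.sum_filter, Finset.sum_const, nsmul_eq_mul, mul_one]
    congr 2
    ext x
    rw [Finset.mem_filter]
    exact ⟨fun h => h.2, fun h => ⟨hCs h, h⟩⟩
  have h3 : ∀ x ∈ range Λ, ‖∑ ξ ∈ range Λ, (if ξ ∈ C then (1 : ℂ) else 0) *
      ee ((ξ : ℝ) * x / Λ)‖ ^ 2 = (C.card : ℝ) ^ 2 * bohw Λ C x := by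
    intro x _
    have e1 : ∑ ξ ∈ range Λ, (if ξ ∈ C then (1 : ℂ) else 0) * ee ((ξ : ℝ) * x / Λ) =
        ∑ s ∈ C, ee ((x : ℝ) * s / Λ) := by
      have e2 : ∀ ξ ∈ range Λ, (if ξ ∈ C then (1 : ℂ) else 0) * ee ((ξ : ℝ) * x / Λ) =
          if ξ ∈ C then ee ((x : ℝ) * ξ / Λ) else 0 := by
        intro ξ _
        split_ifs
        · rw [one_mul, mul_comm (ξ : ℝ)]
        · rw [zero_mul]
      rw [Finset.sum_congr rfl e2, ← Finset.sum_filter]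
      apply Finset.sum_congr _ (fun _ _ => rfl)
      ext x
      rw [Finset.mem_filter]
      exact ⟨fun h => h.2, fun h => ⟨hCs h, h⟩⟩
    rw [e1]
    unfold bohw bohc
    rw [norm_div, Complex.norm_natCast, div_pow]
    field_simp
  rw [Finset.sum_congr rfl h3, ← Finset.mul_sum] at h1
  rw [h2] at h1
  rw [eq_div_iff hc0.ne']
  have h4 : (C.card : ℝ) * ((∑ ξ ∈ range Λ, bohw Λ C ξ) * C.card) = C.card * Λ := by
    calc (C.card : ℝ) * ((∑ ξ ∈ range Λ, bohw Λ C ξ) * C.card) =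
        (C.card : ℝ) ^ 2 * ∑ ξ ∈ range Λ, bohw Λ C ξ := by ring
      _ = Λ * C.card := h1
      _ = C.card * Λ := by ring
  exact mul_left_cancel₀ hc0.ne' h4

/-- the smoothed function -/
noncomputable def bohS (Λ : ℕ) (C : Finset ℕ) (G : ℕ → ℂ) (x : ℕ) : ℂ :=
  (∑ p ∈ C ×ˢ C, G (x + (p.1 + (Λ - p.2)))) / ((C.card : ℂ) ^ 2)

theorem boh_S_norm (Λ : ℕ) (C : Finset ℕ) (G : ℕ → ℂ) (hG : ∀ x, ‖G x‖ ≤ 1) (x : ℕ) :
    ‖bohS Λ C G x‖ ≤ 1 := by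
  unfold bohS
  rw [norm_div, norm_pow, Complex.norm_natCast]
  apply div_le_one_of_le₀ _ (by positivity)
  calc ‖∑ p ∈ C ×ˢ C, G (x + (p.1 + (Λ - p.2)))‖
      ≤ ∑ p ∈ C ×ˢ C, ‖G (x + (p.1 + (Λ - p.2)))‖ := norm_sum_le _ _
    _ ≤ ∑ p ∈ C ×ˢ C, (1 : ℝ) := Finset.sum_le_sum (fun p _ => hG _)
    _ = (C.card : ℝ) ^ 2 := by
        rw [Finset.sum_const, Finset.card_product, nsmul_eq_mul]; push_cast; ring

theorem boh_S_per (Λ : ℕ) (C : Finset ℕ) (G : ℕ → ℂ) (hG : ∀ x, G (x + Λ) = G x) (x : ℕ) :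
    bohS Λ C G (x + Λ) = bohS Λ C G x := by
  unfold bohS
  congr 1
  apply Finset.sum_congr rfl
  intro p _
  have : x + Λ + (p.1 + (Λ - p.2)) = x + (p.1 + (Λ - p.2)) + Λ := by omega
  rw [this, hG]

theorem boh_S_gh (hFTR : ST_FTR) (Λ : ℕ) (C : Finset ℕ) (G : ℕ → ℂ) (hΛ : 1 ≤ Λ)
    (hCs : C ⊆ range Λ) (hG : ∀ x, G (x + Λ) = G x) (ξ : ℕ) :
    gh Λ (bohS Λ C G) ξ = (bohw Λ C ξ : ℂ) * gh Λ G ξ := by
  have hΛ0 : (Λ : ℝ) ≠ 0 := by exact_mod_cast (by omega : Λ ≠ 0)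
  have h1 : gh Λ (bohS Λ C G) ξ =
      (∑ p ∈ C ×ˢ C, gh Λ (fun x => G (x + (p.1 + (Λ - p.2)))) ξ) / ((C.card : ℂ) ^ 2) :=
    boh_gh_sum Λ (C ×ˢ C) (fun p x => G (x + (p.1 + (Λ - p.2)))) ((C.card : ℂ) ^ 2) ξ
  have h2 : ∀ p ∈ C ×ˢ C, gh Λ (fun x => G (x + (p.1 + (Λ - p.2)))) ξ =
      ee ((ξ : ℝ) * p.1 / Λ) * conj (ee ((ξ : ℝ) * p.2 / Λ)) * gh Λ G ξ := by
    intro p hp
    rw [Finset.mem_product] at hp
    have hp2 := Finset.mem_range.1 (hCs hp.2)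
    rw [hFTR Λ G (p.1 + (Λ - p.2)) ξ hΛ hG]
    congr 1
    have e1 : (ξ : ℝ) * ((p.1 + (Λ - p.2) : ℕ) : ℝ) / Λ =
        (ξ : ℝ) * p.1 / Λ + (-((ξ : ℝ) * p.2 / Λ) + (ξ : ℝ)) := by
      rw [Nat.cast_add, Nat.cast_sub hp2.le]
      field_simp
      ring
    rw [e1, boh_ee_add, boh_ee_add, boh_ee_nat, mul_one, boh_conj_ee]
  rw [h1, Finset.sum_congr rfl h2, ← Finset.sum_mul, boh_w_eq, Finset.sum_product]
  ring

theorem st_BOH (hFIV : ST_FIV) (hFPA : ST_FPA) (hFTR : ST_FTR) (hPIG : ST_PIG)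
    (hNUS : Pool.Agent.Helper16.MD.ST_NUS) : ST_BOH := by
  intro c ε hc hε
  obtain ⟨M, hM⟩ := exists_nat_gt (max 7 (7 / Real.sqrt c))
  have hM7 : (7 : ℝ) < M := lt_of_le_of_lt (le_max_left _ _) hM
  have hMc : 7 / Real.sqrt c < M := lt_of_le_of_lt (le_max_right _ _) hM
  have hM0 : (0 : ℝ) < M := by linarith
  have hM1 : 1 ≤ M := by
    have : (0 : ℕ) < M := by exact_mod_cast hM0
    omega
  have hsc : 0 < Real.sqrt c := Real.sqrt_pos.2 hc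
  have hr0 : (0 : ℝ) ≤ 7 / M := by positivity
  have hr1 : (7 : ℝ) / M < Real.sqrt c := by
    rw [div_lt_iff₀ hM0]
    rw [div_lt_iff₀ hsc] at hMc
    linarith
  have hr2 : ((7 : ℝ) / M) ^ 2 < c := by
    have h1 : ((7 : ℝ) / M) ^ 2 < (Real.sqrt c) ^ 2 := by
      apply pow_lt_pow_left₀ hr1 hr0 (by norm_num)
    rwa [Real.sq_sqrt hc.le] at h1
  set K1 : ℕ := M ^ (⌊4 / c⌋₊) with hK1
  set e' : ℝ := min 1 ε with he'
  have he0 : 0 < e' := lt_min one_pos hε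
  have he1 : e' ≤ 1 := min_le_left _ _
  have he2 : e' ≤ ε := min_le_right _ _
  refine ⟨⌈(K1 : ℝ) / e'⌉₊, ?_⟩
  intro Λ G hΛ hG hper
  have hΛ0 : (0 : ℝ) < Λ := by exact_mod_cast hΛ
  have hnus := hNUS Λ G hΛ hG
  have hnn : ∀ ξ, 0 ≤ nu Λ G ξ := by
    intro ξ; rw [boh_nu]; positivity
  set S0 : Finset ℕ := (range Λ).filter (fun ξ => c / 4 ≤ nu Λ G ξ) with hS0
  have hS0c : S0.card ≤ ⌊4 / c⌋₊ := by
    apply Nat.le_floor
    rw [le_div_iff₀ hc]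
    have h1 : (S0.card : ℝ) * (c / 4) ≤ ∑ ξ ∈ S0, nu Λ G ξ := by
      rw [← nsmul_eq_mul, ← Finset.sum_const]
      apply Finset.sum_le_sum
      intro ξ hξ
      rw [hS0, Finset.mem_filter] at hξ
      exact hξ.2
    have h2 : ∑ ξ ∈ S0, nu Λ G ξ ≤ ∑ ξ ∈ range Λ, nu Λ G ξ :=
      Finset.sum_le_sum_of_subset_of_nonneg (Finset.filter_subset _ _) (fun ξ _ _ => hnn ξ)
    linarith
  obtain ⟨C, hCs, hCc, hCe⟩ := hPIG Λ M S0 hΛ hM1
  have hCpos : 0 < C.card := by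
    rcases Nat.eq_zero_or_pos C.card with h | h
    · rw [h, mul_zero] at hCc; omega
    · exact h
  have hCne : C.Nonempty := Finset.card_pos.1 hCpos
  have hC0 : (0 : ℝ) < C.card := by exact_mod_cast hCpos
  have hΛK : (Λ : ℝ) / C.card ≤ K1 := by
    rw [div_le_iff₀ hC0]
    have h1 : Λ ≤ K1 * C.card := by
      refine hCc.trans ?_
      apply Nat.mul_le_mul_right
      exact Nat.pow_le_pow_right hM1 hS0c
    exact_mod_cast h1
  have hwsum := boh_w_sum hFPA Λ C hΛ hCne hCs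
  set S : Finset ℕ := (range Λ).filter (fun ξ => e' ≤ bohw Λ C ξ) with hS
  set b : ℕ → ℂ := fun ξ => (bohw Λ C ξ : ℂ) * gh Λ G ξ with hb
  have hbn : ∀ ξ, ‖b ξ‖ = bohw Λ C ξ * ‖gh Λ G ξ‖ := by
    intro ξ
    rw [hb]
    simp only
    rw [norm_mul, Complex.norm_real, Real.norm_of_nonneg (boh_w_nonneg Λ C ξ)]
  have hper' : ∀ ξ x : ℕ, ee ((ξ : ℝ) * ((x + Λ : ℕ) : ℝ) / Λ) = ee ((ξ : ℝ) * x / Λ) := by
    intro ξ x
    have e1 : (ξ : ℝ) * ((x + Λ : ℕ) : ℝ) / Λ = (ξ : ℝ) * x / Λ + (ξ : ℝ) := by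
      rw [Nat.cast_add]; field_simp
    rw [e1, boh_ee_add, boh_ee_nat, mul_one]
  set b' : ℕ → ℂ := fun ξ => if ξ ∈ S then 0 else b ξ with hb'
  refine ⟨fun x => G x - bohS Λ C G x, fun x => ∑ ξ ∈ range Λ, b' ξ * ee ((ξ : ℝ) * x / Λ), S, b,
    Finset.filter_subset _ _, ?_, ?_, ?_, ?_, ?_, ?_, ?_, ?_⟩
  · -- card
    have h1 : (S.card : ℝ) * e' ≤ ∑ ξ ∈ S, bohw Λ C ξ := by
      rw [← nsmul_eq_mul, ← Finset.sum_const]
      apply Finset.sum_le_sum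
      intro ξ hξ
      rw [hS, Finset.mem_filter] at hξ
      exact hξ.2
    have h2 : ∑ ξ ∈ S, bohw Λ C ξ ≤ ∑ ξ ∈ range Λ, bohw Λ C ξ :=
      Finset.sum_le_sum_of_subset_of_nonneg (Finset.filter_subset _ _)
        (fun ξ _ _ => boh_w_nonneg Λ C ξ)
    have h3 : (S.card : ℝ) ≤ (K1 : ℝ) / e' := by
      rw [le_div_iff₀ he0]; linarith
    have h4 : (S.card : ℝ) ≤ ⌈(K1 : ℝ) / e'⌉₊ := h3.trans (Nat.le_ceil _)
    exact_mod_cast h4
  · intro ξ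
    rw [hbn]
    have h1 := boh_w_nonneg Λ C ξ
    have h2 := boh_w_le Λ C ξ
    have h3 := boh_gh_norm Λ G ξ hΛ hG
    have h4 := norm_nonneg (gh Λ G ξ)
    nlinarith
  · -- the decomposition
    intro x
    have h1 := hFIV Λ (bohS Λ C G) hΛ (boh_S_per Λ C G hper) x
    have h2 : bohS Λ C G x = ∑ ξ ∈ range Λ, b ξ * ee ((ξ : ℝ) * x / Λ) := by
      rw [h1]
      apply Finset.sum_congr rfl
      intro ξ _
      rw [boh_S_gh hFTR Λ C G hΛ hCs hper ξ]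
    have h3 : ∑ ξ ∈ range Λ, b ξ * ee ((ξ : ℝ) * x / Λ) =
        ∑ ξ ∈ range Λ, b' ξ * ee ((ξ : ℝ) * x / Λ) + ∑ ξ ∈ S, b ξ * ee ((ξ : ℝ) * x / Λ) := by
      have e1 : ∑ ξ ∈ S, b ξ * ee ((ξ : ℝ) * x / Λ) =
          ∑ ξ ∈ range Λ, if ξ ∈ S then b ξ * ee ((ξ : ℝ) * x / Λ) else 0 := by
        rw [← Finset.sum_filter]
        apply Finset.sum_congr _ (fun _ _ => rfl)
        ext ξ
        constructor
        · intro h
          exact Finset.mem_filter.2 ⟨Finset.filter_subset _ _ h, h⟩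
        · intro h
          exact (Finset.mem_filter.1 h).2
      rw [e1, ← Finset.sum_add_distrib]
      apply Finset.sum_congr rfl
      intro ξ _
      rw [hb']
      simp only
      split_ifs
      · ring
      · ring
    simp only
    rw [h2, h3]
    ring
  · intro x
    simp only
    rw [hper, boh_S_per Λ C G hper]
  · intro x
    simp only
    apply Finset.sum_congr rfl
    intro ξ _
    rw [hper']
  · intro x
    simp only
    calc ‖G x - bohS Λ C G x‖ ≤ ‖G x‖ + ‖bohS Λ C G x‖ := norm_sub_le _ _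
      _ ≤ 1 + 1 := add_le_add (hG x) (boh_S_norm Λ C G hG x)
      _ = 2 := by norm_num
  · -- small in mean square
    rw [hFPA Λ b' hΛ]
    have h1 : ∑ ξ ∈ range Λ, ‖b' ξ‖ ^ 2 ≤ ε := by
      calc ∑ ξ ∈ range Λ, ‖b' ξ‖ ^ 2 ≤ ∑ ξ ∈ range Λ, e' * nu Λ G ξ := by
            apply Finset.sum_le_sum
            intro ξ hξ
            rw [hb']
            simp only
            split_ifs with h
            · rw [norm_zero]
              have := mul_nonneg he0.le (hnn ξ)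
              simpa using this
            · have hw : bohw Λ C ξ < e' := by
                by_contra hcon
                push Not at hcon
                exact h (Finset.mem_filter.2 ⟨hξ, hcon⟩)
              rw [hbn, mul_pow, boh_nu]
              apply mul_le_mul_of_nonneg_right _ (by positivity)
              have h1 := boh_w_nonneg Λ C ξ
              nlinarith
        _ = e' * ∑ ξ ∈ range Λ, nu Λ G ξ := by rw [Finset.mul_sum]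
        _ ≤ e' * 1 := mul_le_mul_of_nonneg_left hnus he0.le
        _ ≤ ε := by linarith
    nlinarith
  · -- the Fourier coefficients of U
    intro ξ hξ
    rw [boh_nu, boh_gh_sub, boh_S_gh hFTR Λ C G hΛ hCs hper ξ]
    have e1 : gh Λ G ξ - (bohw Λ C ξ : ℂ) * gh Λ G ξ = ((1 - bohw Λ C ξ : ℝ) : ℂ) * gh Λ G ξ := by
      push_cast; ring
    have hw0 := boh_w_nonneg Λ C ξ
    have hw1 := boh_w_le Λ C ξ
    rw [e1, norm_mul, Complex.norm_real, Real.norm_of_nonneg (by linarith), mul_pow]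
    have hnuξ : ‖gh Λ G ξ‖ ^ 2 ≤ 1 := by
      have h1 := boh_gh_norm Λ G ξ hΛ hG
      have h2 := norm_nonneg (gh Λ G ξ)
      nlinarith
    have hnu0 : 0 ≤ ‖gh Λ G ξ‖ ^ 2 := by positivity
    by_cases h : ξ ∈ S0
    · have h1 := boh_one_sub_w Λ C ξ hCne (7 / M) (hCe ξ h)
      have h2 : (1 - bohw Λ C ξ) ^ 2 ≤ ((7 : ℝ) / M) ^ 2 :=
        pow_le_pow_left₀ (by linarith) h1 2
      have h3 : (1 - bohw Λ C ξ) ^ 2 * ‖gh Λ G ξ‖ ^ 2 ≤ ((7 : ℝ) / M) ^ 2 * 1 :=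
        mul_le_mul h2 hnuξ hnu0 (by positivity)
      linarith
    · have h1 : nu Λ G ξ < c / 4 := by
        by_contra hcon
        push Not at hcon
        exact h (Finset.mem_filter.2 ⟨hξ, hcon⟩)
      rw [boh_nu] at h1
      have h2 : (1 - bohw Λ C ξ) ^ 2 ≤ 1 := by nlinarith
      have h3 : (1 - bohw Λ C ξ) ^ 2 * ‖gh Λ G ξ‖ ^ 2 ≤ 1 * ‖gh Λ G ξ‖ ^ 2 :=
        mul_le_mul_of_nonneg_right h2 hnu0
      linarith

end Pool.Agent.Helper13.FR
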