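import Pool.Agent.Helper42.FR.Stmts

/-!
# Row FO: Følner sets of the group generated by two shifts
-/

set_option autoImplicit false

namespace Pool.Agent.Helper37.FR

open Pool.Agent.Helper42.FR Equiv

/-- the shift of the line -/
def S : Perm Om := Equiv.sumCongr (Equiv.addRight (1 : ℤ)) (Equiv.refl ℕ)

/-- the shift of the ray -/
def T : Perm Om where
  toFun x := match x with
    | .inl j => if j ≤ 0 then .inl (j - 1) else .inl j
    | .inr 0 => .inl 0
    | .inr (k + 1) => .inr k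
  invFun x := match x with
    | .inl j => if 1 ≤ j then .inl j else if j = 0 then .inr 0 else .inl (j + 1)
    | .inr k => .inr (k + 1)
  left_inv x := by
    rcases x with j | k
    · by_cases h : j ≤ 0
      · have h1 : ¬ 1 ≤ j - 1 := by omega
        have h2 : ¬ j - 1 = 0 := by omega
        simp [h, h1, h2]
      · have h1 : 1 ≤ j := by omega
        simp [h, h1]
    · cases k with
      | zero => simp
      | succ k => simp
  right_inv x := by
    rcases x with j | k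
    · by_cases h : 1 ≤ j
      · have h1 : ¬ j ≤ 0 := by omega
        simp [h, h1]
      · by_cases h0 : j = 0
        · simp [h0]
        · have h2 : j + 1 ≤ 0 := by omega
          simp [h, h0, h2]
    · simp

theorem T_neg (j : ℤ) (h : j ≤ 0) : T (.inl j) = .inl (j - 1) := by
  show (if j ≤ 0 then (Sum.inl (j - 1) : Om) else .inl j) = _
  rw [if_pos h]

theorem T_pos (j : ℤ) (h : 1 ≤ j) : T (.inl j) = .inl j := by
  show (if j ≤ 0 then (Sum.inl (j - 1) : Om) else .inl j) = _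
  rw [if_neg (by omega)]

theorem T_r0 : T (.inr 0) = .inl 0 := rfl

theorem T_rs (k : ℕ) : T (.inr (k + 1)) = .inr k := rfl

theorem S_l (j : ℤ) : S (.inl j) = .inl (j + 1) := rfl

theorem S_r (k : ℕ) : S (.inr k) = .inr k := rfl

theorem Si_l (j : ℤ) : S⁻¹ (.inl j) = .inl (j - 1) := by
  rw [Perm.inv_eq_iff_eq, S_l, sub_add_cancel]

theorem Si_r (k : ℕ) : S⁻¹ (.inr k) = .inr k := by
  rw [Perm.inv_eq_iff_eq, S_r]

theorem Ti_neg (j : ℤ) (h : j ≤ -1) : T⁻¹ (.inl j) = .inl (j + 1) := by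
  rw [Perm.inv_eq_iff_eq, T_neg _ (by omega), add_sub_cancel_right]

theorem Ti_0 : T⁻¹ (.inl 0) = .inr 0 := by
  rw [Perm.inv_eq_iff_eq, T_r0]

theorem Ti_pos (j : ℤ) (h : 1 ≤ j) : T⁻¹ (.inl j) = .inl j := by
  rw [Perm.inv_eq_iff_eq, T_pos _ h]

theorem Ti_r (k : ℕ) : T⁻¹ (.inr k) = .inr (k + 1) := by
  rw [Perm.inv_eq_iff_eq, T_rs]

theorem Tp_pos (a : ℕ) (m : ℤ) (h : 1 ≤ m) : (T ^ a) (.inl m) = .inl m := by
  induction a with
  | zero => rfl
  | succ a ih => rw [pow_succ', Perm.mul_apply, ih, T_pos m h]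

theorem Tp_neg (a : ℕ) (m : ℤ) (h : m ≤ 0) : (T ^ a) (.inl m) = .inl (m - a) := by
  induction a with
  | zero => simp
  | succ a ih =>
    rw [pow_succ', Perm.mul_apply, ih, T_neg _ (by omega)]
    congr 1
    push_cast
    ring

theorem Tp_r (a k : ℕ) (h : a ≤ k) : (T ^ a) (.inr k) = .inr (k - a) := by
  induction a with
  | zero => rfl
  | succ a ih =>
    rw [pow_succ', Perm.mul_apply, ih (by omega), show k - a = (k - (a + 1)) + 1 by omega, T_rs]

theorem Sp_l (a : ℕ) (m : ℤ) : (S ^ a) (.inl m) = .inl (m + a) := by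
  induction a with
  | zero => simp
  | succ a ih =>
    rw [pow_succ', Perm.mul_apply, ih, S_l]
    congr 1
    push_cast
    ring

theorem Sp_r (a k : ℕ) : (S ^ a) (.inr k) = .inr k := by
  induction a with
  | zero => rfl
  | succ a ih => rw [pow_succ', Perm.mul_apply, ih, S_r]

theorem rel : S⁻¹ * (T * (S * (T⁻¹ * (S * T)))) = S * (T * (S⁻¹ * (T * (S * T⁻¹)))) := by
  ext1 x
  simp only [Perm.mul_apply]
  rcases x with j | k
  · rcases le_or_gt 1 j with h | h
    · rw [T_pos j h, S_l, Ti_pos _ (by omega), S_l, T_pos _ (by omega), Si_l, Ti_pos _ h, S_l,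
        T_pos _ (by omega), Si_l, T_pos _ (by omega), S_l]
      congr 1
      ring
    · rcases eq_or_ne j 0 with h0 | h0
      · subst h0
        rw [T_neg 0 le_rfl, S_l, show (0 : ℤ) - 1 + 1 = 0 by norm_num, Ti_0, S_r, T_r0, Si_l, T_neg _ (by norm_num), S_l]
        norm_num
      · rcases eq_or_ne j (-1) with h1 | h1
        · subst h1
          rw [T_neg _ (by norm_num), S_l, show (-1 : ℤ) - 1 + 1 = -1 by norm_num,
            Ti_neg _ le_rfl, show (-1 : ℤ) + 1 = 0 by norm_num, S_l, T_pos _ (by norm_num), Si_l,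
            show (0 : ℤ) + 1 - 1 = 0 by norm_num, T_neg _ le_rfl, S_l]
          norm_num
        · rw [T_neg j (by omega), S_l, show j - 1 + 1 = j by ring, Ti_neg j (by omega), S_l,
            T_neg _ (by omega), Si_l, T_neg _ (by omega), S_l]
          congr 1
          ring
  · cases k with
    | zero =>
      rw [T_r0, S_l, Ti_pos _ (by norm_num), S_l, T_pos _ (by norm_num), Si_l, Ti_r, S_r, T_rs,
        Si_r, T_r0, S_l]
      norm_num
    | succ k =>
      rw [T_rs, S_r, Ti_r, S_r, T_rs, Si_r, Ti_r, S_r, T_rs, Si_r, T_rs, S_r]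

/-- the window -/
noncomputable def Wn (n : ℕ) : Finset Om := (Finset.Icc (-n : ℤ) 0).disjSum (Finset.range n)

/-- the cocycle -/
noncomputable def tau (i j : ℕ) : Perm Om := (T ^ (j + 1))⁻¹ * ((S ^ i)⁻¹ * (T * (S ^ i * T ^ j)))

theorem tau_fix (n i j : ℕ) (hi : i < n) (hj : j < n) (x : Om) (hx : x ∉ Wn n) :
    tau i j x = x := by
  unfold tau
  simp only [Perm.mul_apply]
  rw [Perm.inv_eq_iff_eq, Perm.inv_eq_iff_eq]
  rcases x with m | k
  · have h : ¬ (-(n : ℤ) ≤ m ∧ m ≤ 0) := by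
      intro h
      exact hx (Finset.inl_mem_disjSum.2 (Finset.mem_Icc.2 h))
    rcases le_or_gt 1 m with h1 | h1
    · rw [Tp_pos j m h1, Tp_pos (j + 1) m h1, Sp_l, T_pos _ (by omega)]
    · rw [Tp_neg j m (by omega), Tp_neg (j + 1) m (by omega), Sp_l, Sp_l, T_neg _ (by omega)]
      congr 1
      push_cast
      ring
  · have h : ¬ k < n := fun h => hx (Finset.inr_mem_disjSum.2 (Finset.mem_range.2 h))
    rw [Tp_r j k (by omega), Tp_r (j + 1) k (by omega), Sp_r, Sp_r,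
      show k - j = (k - (j + 1)) + 1 by omega, T_rs]

theorem tau_mem (n i j : ℕ) (hi : i < n) (hj : j < n) (x : Om) : tau i j x ∈ Wn n ↔ x ∈ Wn n := by
  constructor
  · intro h
    by_contra hx
    rw [tau_fix n i j hi hj x hx] at h
    exact hx h
  · intro h
    by_contra hx
    have h1 := tau_fix n i j hi hj _ hx
    have h2 := (tau i j).injective h1
    rw [h2] at hx
    exact hx h

/-- the finite set -/
abbrev GG (n : ℕ) : Type := Fin n × Fin n × Perm {x : Om // x ∈ Wn n}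

/-- the restriction of the cocycle -/
noncomputable def tu {n : ℕ} (i j : Fin n) : Perm {x : Om // x ∈ Wn n} :=
  (tau i j).subtypePerm (tau_mem n i j i.2 j.2)

theorem tu_eq {n : ℕ} (i j : Fin n) : Perm.ofSubtype (tu i j) = tau i j :=
  Perm.ofSubtype_subtypePerm (tau_mem n i j i.2 j.2) fun x hx => by
    by_contra h
    exact hx (tau_fix n i j i.2 j.2 x h)

/-- the group elements -/
noncomputable def Ph {n : ℕ} (g : GG n) : Perm Om :=
  S ^ (g.1 : ℕ) * (T ^ (g.2.1 : ℕ) * Perm.ofSubtype g.2.2)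

theorem Ph_inj (n : ℕ) : Function.Injective (Ph (n := n)) := by
  rintro ⟨i, j, σ⟩ ⟨i', j', σ'⟩ h
  have hi := i.2
  have hj := j.2
  have hi' := i'.2
  have hj' := j'.2
  have ev : ∀ x : Om, (S ^ (i : ℕ)) ((T ^ (j : ℕ)) (Perm.ofSubtype σ x)) =
      (S ^ (i' : ℕ)) ((T ^ (j' : ℕ)) (Perm.ofSubtype σ' x)) := fun x =>
    congrArg (fun f : Perm Om => f x) h
  have n1 : (Sum.inr (2 * n) : Om) ∉ Wn n := by
    intro hc
    have := Finset.mem_range.1 (Finset.inr_mem_disjSum.1 hc)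
    omega
  have n2 : (Sum.inl 1 : Om) ∉ Wn n := by
    intro hc
    have := Finset.mem_Icc.1 (Finset.inl_mem_disjSum.1 hc)
    omega
  have e1 := ev (.inr (2 * n))
  rw [Perm.ofSubtype_apply_of_not_mem _ n1, Perm.ofSubtype_apply_of_not_mem _ n1,
    Tp_r _ _ (by omega), Tp_r _ _ (by omega), Sp_r, Sp_r] at e1
  have e1' := Sum.inr.inj e1
  have e2 := ev (.inl 1)
  rw [Perm.ofSubtype_apply_of_not_mem _ n2, Perm.ofSubtype_apply_of_not_mem _ n2,
    Tp_pos _ _ le_rfl, Tp_pos _ _ le_rfl, Sp_l, Sp_l] at e2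
  have e2' := Sum.inl.inj e2
  have hii : i = i' := Fin.ext (by omega)
  have hjj : j = j' := Fin.ext (by omega)
  subst hii
  subst hjj
  have e3 : Perm.ofSubtype σ = Perm.ofSubtype σ' := by
    have h4 : S ^ (i : ℕ) * (T ^ (j : ℕ) * Perm.ofSubtype σ) =
        S ^ (i : ℕ) * (T ^ (j : ℕ) * Perm.ofSubtype σ') := h
    exact mul_left_cancel (mul_left_cancel h4)
  rw [Perm.ofSubtype_injective e3]

theorem fo_rot (n : ℕ) : ∃ r : Perm (Fin n), ∀ i : Fin n, (i : ℕ) + 1 < n →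
    ((r i : Fin n) : ℕ) = i + 1 := by
  cases n with
  | zero => exact ⟨1, fun i => i.elim0⟩
  | succ n =>
    refine ⟨finRotate (n + 1), fun i hi => coe_finRotate_of_ne_last fun h => ?_⟩
    rw [h, Fin.val_last] at hi
    omega

/-- far from the boundary -/
def gd {n : ℕ} (k : ℕ) (g : GG n) : Prop :=
  k ≤ (g.1 : ℕ) ∧ (g.1 : ℕ) + k < n ∧ k ≤ (g.2.1 : ℕ) ∧ (g.2.1 : ℕ) + k < n

theorem fo_st (n : ℕ) : ∃ s t : Perm (GG n),
    (∀ k g, gd (k + 1) g → gd k (s g) ∧ Ph (s g) = S * Ph g) ∧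
    (∀ k g, gd (k + 1) g → gd k (t g) ∧ Ph (t g) = T * Ph g) ∧
    (∀ k g, gd (k + 1) g → gd k (s⁻¹ g) ∧ Ph (s⁻¹ g) = S⁻¹ * Ph g) ∧
    (∀ k g, gd (k + 1) g → gd k (t⁻¹ g) ∧ Ph (t⁻¹ g) = T⁻¹ * Ph g) := by
  obtain ⟨r, hr⟩ := fo_rot n
  have hr' : ∀ i : Fin n, 1 ≤ (i : ℕ) → ((r⁻¹ i : Fin n) : ℕ) + 1 = i := by
    intro i hi
    have hi2 := i.2
    have h1 : r ⟨(i : ℕ) - 1, by omega⟩ = i := by
      apply Fin.ext
      rw [hr _ (by simp only; omega)]
      simp only
      omega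
    have h2 : r⁻¹ i = ⟨(i : ℕ) - 1, by omega⟩ := by
      rw [Perm.inv_eq_iff_eq, h1]
    rw [h2]
    simp only
    omega
  let s : Perm (GG n) := Equiv.prodCongr r (Equiv.refl _)
  let t : Perm (GG n) :=
    { toFun := fun g => (g.1, r g.2.1, tu g.1 g.2.1 * g.2.2)
      invFun := fun g => (g.1, r⁻¹ g.2.1, (tu g.1 (r⁻¹ g.2.1))⁻¹ * g.2.2)
      left_inv := by
        rintro ⟨i, j, σ⟩
        simp
      right_inv := by
        rintro ⟨i, j, σ⟩
        simp }
  have s1 : ∀ g : GG n, s g = (r g.1, g.2) := fun g => rfl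
  have t1 : ∀ g : GG n, t g = (g.1, r g.2.1, tu g.1 g.2.1 * g.2.2) := fun g => rfl
  have s2 : ∀ g : GG n, s⁻¹ g = (r⁻¹ g.1, g.2) := by
    intro g
    rw [Perm.inv_eq_iff_eq, s1]
    simp
  have t2 : ∀ g : GG n, t⁻¹ g = (g.1, r⁻¹ g.2.1, (tu g.1 (r⁻¹ g.2.1))⁻¹ * g.2.2) := by
    intro g
    rw [Perm.inv_eq_iff_eq, t1]
    simp
  have ps : ∀ g : GG n, (g.1 : ℕ) + 1 < n → Ph (s g) = S * Ph g := by
    intro g hg
    rw [s1]
    unfold Ph
    simp only
    rw [hr _ hg, pow_succ', mul_assoc]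
  have pt : ∀ g : GG n, (g.2.1 : ℕ) + 1 < n → Ph (t g) = T * Ph g := by
    intro g hg
    rw [t1]
    unfold Ph
    simp only
    rw [hr _ hg, map_mul, tu_eq]
    unfold tau
    simp only [mul_assoc]
    rw [mul_inv_cancel_left, mul_inv_cancel_left]
  refine ⟨s, t, ?_, ?_, ?_, ?_⟩
  · rintro k g ⟨h1, h2, h3, h4⟩
    refine ⟨?_, ps g (by omega)⟩
    rw [s1]
    have := hr g.1 (by omega)
    exact ⟨by simp only; omega, by simp only; omega, by simp only; omega, by simp only; omega⟩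
  · rintro k g ⟨h1, h2, h3, h4⟩
    refine ⟨?_, pt g (by omega)⟩
    rw [t1]
    have := hr g.2.1 (by omega)
    exact ⟨by simp only; omega, by simp only; omega, by simp only; omega, by simp only; omega⟩
  · rintro k g ⟨h1, h2, h3, h4⟩
    have h5 := hr' g.1 (by omega)
    have h6 := ps (s⁻¹ g) (by rw [s2]; simp only; omega)
    rw [show s (s⁻¹ g) = g by rw [← Perm.mul_apply, mul_inv_cancel, Perm.one_apply]] at h6
    refine ⟨?_, by rw [h6, inv_mul_cancel_left]⟩
    rw [s2]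
    exact ⟨by simp only; omega, by simp only; omega, by simp only; omega, by simp only; omega⟩
  · rintro k g ⟨h1, h2, h3, h4⟩
    have h5 := hr' g.2.1 (by omega)
    have h6 := pt (t⁻¹ g) (by rw [t2]; simp only; omega)
    rw [show t (t⁻¹ g) = g by rw [← Perm.mul_apply, mul_inv_cancel, Perm.one_apply]] at h6
    refine ⟨?_, by rw [h6, inv_mul_cancel_left]⟩
    rw [t2]
    exact ⟨by simp only; omega, by simp only; omega, by simp only; omega, by simp only; omega⟩

open Classical in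
theorem fo_bad (n : ℕ) :
    (Finset.univ.filter (fun g : GG n => ¬ gd 6 g)).card ≤
      24 * n * Fintype.card (Perm {x : Om // x ∈ Wn n}) := by
  set B : Finset (Fin n) := Finset.univ.filter (fun i : Fin n => (i : ℕ) < 6 ∨ n ≤ (i : ℕ) + 6)
    with hB
  have hBc : B.card ≤ 12 := by
    have h1 := Finset.card_le_card_of_injOn (s := B) (t := Finset.range 12)
      (fun i : Fin n => if (i : ℕ) < 6 then (i : ℕ) else (i : ℕ) + 12 - n) (by
        intro i hi
        have h2 := (Finset.mem_filter.1 (Finset.mem_coe.1 hi)).2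
        have h3 := i.2
        simp only [Finset.coe_range, Set.mem_Iio]
        split_ifs <;> omega) (by
        intro i hi j hj hij
        have h2 := (Finset.mem_filter.1 (Finset.mem_coe.1 hi)).2
        have h3 := (Finset.mem_filter.1 (Finset.mem_coe.1 hj)).2
        have h4 := i.2
        have h5 := j.2
        simp only at hij
        apply Fin.ext
        split_ifs at hij <;> omega)
    rwa [Finset.card_range] at h1
  have hsub : Finset.univ.filter (fun g : GG n => ¬ gd 6 g) ⊆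
      (B ×ˢ (Finset.univ : Finset (Fin n × Perm {x : Om // x ∈ Wn n}))) ∪
      ((Finset.univ : Finset (Fin n)) ×ˢ (B ×ˢ (Finset.univ :
        Finset (Perm {x : Om // x ∈ Wn n})))) := by
    rintro ⟨i, j, σ⟩ hg
    have hg' := (Finset.mem_filter.1 hg).2
    rw [Finset.mem_union, Finset.mem_product, Finset.mem_product, Finset.mem_product, hB,
      Finset.mem_filter, Finset.mem_filter]
    by_contra hcon
    push Not at hcon
    apply hg'
    obtain ⟨c1, c2⟩ := hcon
    have d1 : ¬ ((i : ℕ) < 6 ∨ n ≤ (i : ℕ) + 6) := fun h =>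
      c1 ⟨Finset.mem_univ _, h⟩ (Finset.mem_univ _)
    have d2 : ¬ ((j : ℕ) < 6 ∨ n ≤ (j : ℕ) + 6) := fun h =>
      c2 (Finset.mem_univ _) ⟨Finset.mem_univ _, h⟩ (Finset.mem_univ _)
    exact ⟨by simp only; omega, by simp only; omega, by simp only; omega, by simp only; omega⟩
  refine (Finset.card_le_card hsub).trans ((Finset.card_union_le _ _).trans ?_)
  rw [Finset.card_product, Finset.card_product, Finset.card_product, Finset.card_univ,
    Finset.card_univ, Finset.card_univ, Fintype.card_prod, Fintype.card_fin]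
  have : B.card * (n * Fintype.card (Perm {x : Om // x ∈ Wn n})) +
      n * (B.card * Fintype.card (Perm {x : Om // x ∈ Wn n})) =
      B.card * (2 * (n * Fintype.card (Perm {x : Om // x ∈ Wn n}))) := by ring
  rw [this]
  calc B.card * (2 * (n * Fintype.card (Perm {x : Om // x ∈ Wn n}))) ≤
      12 * (2 * (n * Fintype.card (Perm {x : Om // x ∈ Wn n}))) := Nat.mul_le_mul_right _ hBc
    _ = 24 * n * Fintype.card (Perm {x : Om // x ∈ Wn n}) := by ring

theorem st_FO : ST_FO := by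
  classical
  intro N hN
  obtain ⟨n, hn⟩ : ∃ n : ℕ, n = 24 * N := ⟨_, rfl⟩
  have hn0 : 0 < n := by omega
  obtain ⟨s, t, hs, ht, hsi, hti⟩ := fo_st n
  let xx : GG n → Om := fun g => (Ph g)⁻¹ (.inl 0)
  refine ⟨GG n, Set.range xx, inferInstance, inferInstance, Fintype.ofFinite _, inferInstance,
    ⟨(⟨0, hn0⟩, ⟨0, hn0⟩, 1)⟩, s, t, fun g => ⟨xx g, g, rfl⟩,
    Finset.univ.filter (fun g : GG n => ¬ gd 6 g), ?_, ?_⟩
  · have h1 := fo_bad n
    have h2 : Fintype.card (GG n) = n * (n * Fintype.card (Perm {x : Om // x ∈ Wn n})) := by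
      rw [Fintype.card_prod, Fintype.card_prod, Fintype.card_fin]
    rw [h2]
    calc (Finset.univ.filter (fun g : GG n => ¬ gd 6 g)).card * N ≤
        (24 * n * Fintype.card (Perm {x : Om // x ∈ Wn n})) * N := Nat.mul_le_mul_right _ h1
      _ = (24 * N) * (n * Fintype.card (Perm {x : Om // x ∈ Wn n})) := by ring
      _ = n * (n * Fintype.card (Perm {x : Om // x ∈ Wn n})) := by rw [← hn]
  · intro g hg
    have hg' : gd 6 g := by
      by_contra h
      exact hg (Finset.mem_filter.2 ⟨Finset.mem_univ _, h⟩)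
    -- the values
    have key : ∀ (g' : GG n) (w : Perm Om), Ph g' = w * Ph g →
        xx g' = (Ph g)⁻¹ (w⁻¹ (.inl 0)) := by
      intro g' w h
      show (Ph g')⁻¹ (.inl 0) = _
      rw [h, mul_inv_rev, Perm.mul_apply]
    have k0 : xx g = (Ph g)⁻¹ (.inl 0) := rfl
    obtain ⟨a1, b1⟩ := hs 5 g hg'
    obtain ⟨a2, b2⟩ := hsi 5 g hg'
    obtain ⟨a3, b3⟩ := ht 5 g hg'
    obtain ⟨a4, b4⟩ := hti 5 g hg'
    obtain ⟨a5, b5⟩ := hs 4 _ a3
    obtain ⟨a6, b6⟩ := hs 3 _ a5
    obtain ⟨a7, b7⟩ := hsi 4 _ a3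
    obtain ⟨a8, b8⟩ := hs 4 _ a4
    obtain ⟨a9, b9⟩ := ht 3 _ a8
    obtain ⟨a10, b10⟩ := hsi 2 _ a9
    obtain ⟨a11, b11⟩ := hsi 1 _ a10
    obtain ⟨a12, b12⟩ := hti 3 _ a5
    obtain ⟨a13, b13⟩ := hs 2 _ a12
    obtain ⟨a14, b14⟩ := ht 1 _ a13
    obtain ⟨a15, b15⟩ := hsi 0 _ a14
    obtain ⟨a16, b16⟩ := ht 1 _ a10
    obtain ⟨a17, b17⟩ := hs 0 _ a16
    have v1 : xx (s g) = (Ph g)⁻¹ (.inl (-1)) := by
      rw [key (s g) S b1, Si_l]
      norm_num
    have v2 : xx (s⁻¹ g) = (Ph g)⁻¹ (.inl 1) := by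
      rw [key (s⁻¹ g) S⁻¹ b2, inv_inv, S_l]
      norm_num
    have v3 : xx (s (t g)) = (Ph g)⁻¹ (.inl 0) := by
      rw [key (s (t g)) (S * T) (by rw [b5, b3, mul_assoc]), mul_inv_rev, Perm.mul_apply, Si_l,
        Ti_neg _ (by norm_num)]
      norm_num
    have v4 : xx (s (s (t g))) = (Ph g)⁻¹ (.inl (-1)) := by
      rw [key (s (s (t g))) (S * (S * T)) (by rw [b6, b5, b3]; simp only [mul_assoc]), mul_inv_rev,
        mul_inv_rev, Perm.mul_apply, Perm.mul_apply, Si_l, Si_l, Ti_neg _ (by norm_num)]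
      norm_num
    have v5 : xx (s⁻¹ (t g)) = (Ph g)⁻¹ (.inl 1) := by
      rw [key (s⁻¹ (t g)) (S⁻¹ * T) (by rw [b7, b3, mul_assoc]), mul_inv_rev, inv_inv,
        Perm.mul_apply, S_l, Ti_pos _ (by norm_num)]
      norm_num
    have v6 : xx (s⁻¹ (s⁻¹ (t (s (t⁻¹ g))))) = (Ph g)⁻¹ (.inl 1) := by
      rw [key (s⁻¹ (s⁻¹ (t (s (t⁻¹ g))))) (S⁻¹ * (S⁻¹ * (T * (S * T⁻¹))))
        (by rw [b11, b10, b9, b8, b4]; simp only [mul_assoc])]
      simp only [mul_inv_rev, inv_inv, Perm.mul_apply]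
      rw [S_l, S_l, Ti_pos _ (by norm_num), Si_l, T_pos _ (by norm_num)]
      norm_num
    have inj : ∀ {y z : Om}, (Ph g)⁻¹ y = (Ph g)⁻¹ z → y = z := fun h =>
      (Ph g)⁻¹.injective h
    refine ⟨?_, ?_, ?_, ?_, ?_, ?_, ?_, ?_⟩
    · intro h
      have h1 : xx g = xx (s g) := congrArg Subtype.val h
      rw [k0, v1] at h1
      have h2 := Sum.inl.inj (inj h1)
      omega
    · intro h
      have h1 : xx g = xx (s⁻¹ g) := congrArg Subtype.val h
      rw [k0, v2] at h1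
      have h2 := Sum.inl.inj (inj h1)
      omega
    · intro h
      have h1 : xx (s g) = xx (s⁻¹ g) := congrArg Subtype.val h
      rw [v1, v2] at h1
      have h2 := Sum.inl.inj (inj h1)
      omega
    · exact Subtype.ext (v3.trans k0.symm)
    · exact Subtype.ext (v4.trans v1.symm)
    · exact Subtype.ext (v5.trans v2.symm)
    · exact Subtype.ext (v6.trans v2.symm)
    · apply Ph_inj n
      rw [b15, b14, b13, b12, b5, b3, b17, b16, b10, b9, b8, b4]
      have := congrArg (fun f => f * Ph g) rel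
      simpa only [mul_assoc] using this

end Pool.Agent.Helper37.FR
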